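import Pool.Agent.Helper85.ProC.Goals
import Pool.Agent.Helper85.ProP.Poly

/-!
# PROD: the cyclotomic factorisation of `Y ^ (p ^ (n+1)) - 1` modulo `Φ_n(γ)`
-/

set_option autoImplicit false

namespace Pool.Agent.Helper75.ProC

open Polynomial Pool.Agent.Helper85.ProP Pool.Agent.Helper85.ProC

theorem prod_pow_primitive {N : ℕ} (hN : 0 < N) {ζ : ℂ} (hζ : IsPrimitiveRoot ζ N) :
    ∏ j ∈ Finset.range N, ((X : ℂ[X]) - C (ζ ^ j)) = X ^ N - 1 := by
  classical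
  rw [X_pow_sub_one_eq_prod hN hζ]
  refine Finset.prod_bij (fun j _ => ζ ^ j) ?_ ?_ ?_ (fun _ _ => rfl)
  · intro j _
    rw [mem_nthRootsFinset hN, ← pow_mul, mul_comm, pow_mul, hζ.pow_eq_one, one_pow]
  · intro i hi j hj h
    exact hζ.pow_inj (Finset.mem_range.1 hi) (Finset.mem_range.1 hj) h
  · intro b hb
    rw [mem_nthRootsFinset hN] at hb
    haveI : NeZero N := ⟨hN.ne'⟩
    obtain ⟨i, hi, h⟩ := hζ.eq_pow_of_pow_eq_one hb
    exact ⟨i, Finset.mem_range.2 hi, h⟩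

theorem stmtProd.{u} : StmtProd.{u} := by
  intro p hp n R _ γ η
  have hpos : 0 < p ^ (n + 1) := pow_pos hp.out.pos _
  have hζ := Complex.isPrimitiveRoot_exp (p ^ (n + 1)) hpos.ne'
  set ζ := Complex.exp (2 * Real.pi * Complex.I / ((p ^ (n + 1) : ℕ) : ℂ)) with hζd
  set F : ℤ[X][X] := ∏ j ∈ Finset.range (p ^ (n + 1)), (X - C ((X : ℤ[X]) ^ j)) -
    (X ^ p ^ (n + 1) - 1) with hF
  -- the image over the complex numbers vanishes
  have h0 : F.map (aeval ζ : ℤ[X] →ₐ[ℤ] ℂ).toRingHom = 0 := by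
    rw [hF]
    simp only [Polynomial.map_sub, Polynomial.map_prod, map_X, map_C, Polynomial.map_pow,
      Polynomial.map_one]
    have : ∀ j, (aeval ζ : ℤ[X] →ₐ[ℤ] ℂ).toRingHom ((X : ℤ[X]) ^ j) = ζ ^ j := by
      intro j
      rw [map_pow]
      congr 1
      exact aeval_X ζ
    simp only [this]
    rw [prod_pow_primitive hpos hζ, sub_self]
  have h1 : C (Ps p n) ∣ F := by
    rw [C_dvd_iff_dvd_coeff]
    intro i
    have h2 : aeval ζ (F.coeff i) = 0 := by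
      have := congrArg (fun q => coeff q i) h0
      simpa [coeff_map] using this
    rw [ps_eq_cyclotomic, cyclotomic_eq_minpoly hζ hpos]
    exact minpoly.isIntegrallyClosed_dvd (hζ.isIntegral hpos) h2
  obtain ⟨G, hG⟩ := h1
  let φ : ℤ[X] →+* R := (aeval γ : ℤ[X] →ₐ[ℤ] R).toRingHom
  have hφX : φ X = γ := aeval_X γ
  refine ⟨eval₂ φ η G, ?_⟩
  have h3 := congrArg (eval₂ φ η) hG
  rw [hF, eval₂_sub, eval₂_mul, eval₂_C, eval₂_sub, eval₂_pow, eval₂_X, eval₂_one,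
    eval₂_finsetProd] at h3
  have h4 : ∀ j ∈ Finset.range (p ^ (n + 1)), eval₂ φ η (X - C ((X : ℤ[X]) ^ j)) = η - γ ^ j := by
    intro j _
    rw [eval₂_sub, eval₂_X, eval₂_C, map_pow, hφX]
  rw [Finset.prod_congr rfl h4] at h3
  have h5 : φ (Ps p n) = ∑ i ∈ Finset.range p, γ ^ (i * p ^ n) := by
    unfold Ps
    rw [map_sum]
    refine Finset.sum_congr rfl fun i _ => ?_
    rw [map_pow, hφX]
  rw [h5] at h3
  rw [sub_eq_iff_eq_add] at h3
  rw [h3]
  ring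

end Pool.Agent.Helper75.ProC
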